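import Pool.Agent.Q278.YL

/-!
# The weighted trinomial sum with denominator `24^k` modulo `p²`
-/

set_option autoImplicit false

namespace Pool.Agent.Results.MP_96ca4c_nt.Full

open Finset

open Pool.Agent.Q278.YC Pool.Agent.Q267.CDE Q278.PI in
/-- For every prime `p ≡ 1 mod 3` and `4p = x² + 27y²` with `x ≡ 2 mod 3`:
`∑_{k<p} (k+2) (3k)!/k!³ / 24^k ≡ x mod p²`. -/
theorem result (p : ℕ) (hp : p.Prime) (h3 : p % 3 = 1) (x y : ℤ)
    (h4 : 4 * (p : ℤ) = x ^ 2 + 27 * y ^ 2) (hx : x % 3 = 2) :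
    ¬ p ∣ (∑ k ∈ range p, ((k : ℚ) + 2) / 24 ^ k *
      (((3 * k).factorial : ℚ) / (k.factorial : ℚ) ^ 3)).den ∧
    (p : ℤ) ^ 2 ∣ ((∑ k ∈ range p, ((k : ℚ) + 2) / 24 ^ k *
      (((3 * k).factorial : ℚ) / (k.factorial : ℚ) ^ 3)) - (x : ℚ)).num := by
  have : Fact p.Prime := ⟨hp⟩
  obtain ⟨r, hr⟩ : ∃ r, p = 6 * r + 1 := by
    have h5 : p % 2 = 1 := hp.eq_two_or_odd.resolve_left (by
      rintro rfl
      omega)
    exact ⟨p / 6, by omega⟩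
  have hx' : (3 : ℤ) ∣ x - 2 := by omega
  obtain ⟨z, hz⟩ := exists_z (p := p) hr
  rw [← SO_coe hr]
  have e2 : (x : ℚ) = (((x : ℤ) : O p) : ℚ) := by
    push_cast
    rfl
  refine ⟨(SO p).2, ?_⟩
  rw [e2]
  apply cong_of_res2
  rw [SO_final hr x y h4 hx' z hz, map_intCast]

end Pool.Agent.Results.MP_96ca4c_nt.Full
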